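import Pool.Agent.U84.AWQ.Stm
import Pool.Agent.R456.CL.W1

/-!
# Project AWQ, package W1 (helper438): many copies of `g'` in `g`, after a central cut
-/

set_option autoImplicit false

namespace Pool.Agent.U438.AWQ

open Pool.Agent.R456.CL Pool.Agent.U84.AWQ Pool.Agent.R456.CL.W1

universe u

variable {A : Type u} [CStarAlgebra A]

/-- sums of orthogonal projections which are below a projection with two copies of itself. -/
theorem sub_addL {g' a b : A} (hg' : PJ g')
    (hH : ∃ g1 g2 : A, PJ g1 ∧ PJ g2 ∧ g1 * g2 = 0 ∧ Le g1 g' ∧ Le g2 g' ∧ Eqv g' g1 ∧ Eqv g' g2)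
    (ha : PJ a) (hb : PJ b) (hab : a * b = 0) (h1 : Sub a g') (h2 : Sub b g') : Sub (a + b) g' := by
  obtain ⟨g1, g2, hg1, hg2, h12, hl1, hl2, ⟨u1, hu1, hu1'⟩, ⟨u2, hu2, hu2'⟩⟩ := hH
  obtain ⟨v1, hv1, hv1'⟩ := h1
  obtain ⟨v2, hv2, hv2'⟩ := h2
  have hba : b * a = 0 := zero_symm ha hb hab
  have h21 : g2 * g1 = 0 := zero_symm hg1 hg2 h12
  have gv1 : g' * v1 = v1 := v_final ha hg' hv1 hv1'
  have gv2 : g' * v2 = v2 := v_final hb hg' hv2 hv2'
  have va : v1 * a = v1 := v_init ha hv1
  have vb : v2 * b = v2 := v_init hb hv2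
  have gu1 : g1 * u1 = u1 := v_final hg' hg1 hu1 (by rw [hu1', pj_mul hg1])
  have gu2 : g2 * u2 = u2 := v_final hg' hg2 hu2 (by rw [hu2', pj_mul hg2])
  have gu1' : star u1 * g1 = star u1 := by
    have := congrArg star gu1
    rwa [star_mul, pj_star hg1] at this
  have gu2' : star u2 * g2 = star u2 := by
    have := congrArg star gu2
    rwa [star_mul, pj_star hg2] at this
  have e12 : star u1 * u2 = 0 := by
    calc star u1 * u2 = (star u1 * g1) * (g2 * u2) := by rw [gu1', gu2]
      _ = star u1 * (g1 * g2) * u2 := by noncomm_ring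
      _ = 0 := by rw [h12]; simp
  have e21 : star u2 * u1 = 0 := by
    calc star u2 * u1 = (star u2 * g2) * (g1 * u1) := by rw [gu2', gu1]
      _ = star u2 * (g2 * g1) * u1 := by noncomm_ring
      _ = 0 := by rw [h21]; simp
  refine ⟨u1 * v1 + u2 * v2, ?_, ?_⟩
  · calc star (u1 * v1 + u2 * v2) * (u1 * v1 + u2 * v2)
        = star v1 * (star u1 * u1) * v1 + star v1 * (star u1 * u2) * v2
          + star v2 * (star u2 * u1) * v1 + star v2 * (star u2 * u2) * v2 := by
            rw [star_add, star_mul, star_mul]; noncomm_ring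
      _ = star v1 * (g' * v1) + star v2 * (g' * v2) := by
            rw [e12, e21, hu1, hu2]; noncomm_ring
      _ = a + b := by rw [gv1, gv2, hv1, hv2]
  · have gg1 : star u1 * g' = star u1 := by
      calc star u1 * g' = (star u1 * g1) * g' := by rw [gu1']
        _ = star u1 * (g1 * g') := by noncomm_ring
        _ = star u1 := by rw [show g1 * g' = g1 from hl1, gu1']
    have gg2 : star u2 * g' = star u2 := by
      calc star u2 * g' = (star u2 * g2) * g' := by rw [gu2']
        _ = star u2 * (g2 * g') := by noncomm_ring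
        _ = star u2 := by rw [show g2 * g' = g2 from hl2, gu2']
    have key : star (u1 * v1 + u2 * v2) * g' = star (u1 * v1 + u2 * v2) := by
      rw [star_add, star_mul, star_mul, add_mul, mul_assoc, mul_assoc, gg1, gg2]
    rw [mul_assoc, key]

theorem sub_sumL {g' : A} (hg' : PJ g')
    (hH : ∃ g1 g2 : A, PJ g1 ∧ PJ g2 ∧ g1 * g2 = 0 ∧ Le g1 g' ∧ Le g2 g' ∧ Eqv g' g1 ∧ Eqv g' g2)
    {ι : Type u} (s : Finset ι) (q : ι → A) (hq : ∀ i, PJ (q i)) (ho : ∀ i j, i ≠ j → q i * q j = 0)
    (hs : ∀ i, Sub (q i) g') : Sub (∑ i ∈ s, q i) g' := by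
  classical
  induction s using Finset.induction_on with
  | empty => simpa using sub_zero' g'
  | insert a s has ih =>
    rw [Finset.sum_insert has]
    refine sub_addL hg' hH (hq a) (pj_sum s q hq ho) ?_ (hs a) ih
    rw [Finset.mul_sum]
    refine Finset.sum_eq_zero fun j hj => ho a j ?_
    rintro rfl; exact has hj

/-! ### cutting with a central projection -/

theorem cp_mul {z w : A} (hz : CP z) (hw : CP w) : CP (z * w) := by
  refine ⟨pj_mk ?_ ?_, fun x => ?_⟩
  · calc z * w * (z * w) = (z * z) * (w * w) := by rw [mul_assoc, ← mul_assoc w z w, ← hz.2 w]; noncomm_ring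
      _ = z * w := by rw [pj_mul hz.1, pj_mul hw.1]
  · rw [star_mul, pj_star hz.1, pj_star hw.1]; exact (hz.2 w).symm
  · rw [mul_assoc, hw.2 x, ← mul_assoc, hz.2 x, mul_assoc]

theorem cp_one : CP (1 : A) := ⟨pj_mk (by simp) (by simp), fun x => by simp⟩

theorem cp_compl {z : A} (hz : CP z) : CP (1 - z) := by
  refine ⟨pj_mk ?_ ?_, fun x => ?_⟩
  · rw [sub_mul, mul_sub, mul_sub, pj_mul hz.1]; simp
  · rw [star_sub, star_one, pj_star hz.1]
  · rw [sub_mul, mul_sub, hz.2 x]; simp

theorem pj_cut {z p : A} (hz : CP z) (hp : PJ p) : PJ (z * p) := by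
  refine pj_mk ?_ ?_
  · calc z * p * (z * p) = (z * z) * (p * p) := by rw [mul_assoc, ← mul_assoc p z p, ← hz.2 p]; noncomm_ring
      _ = z * p := by rw [pj_mul hz.1, pj_mul hp]
  · rw [star_mul, pj_star hz.1, pj_star hp]; exact (hz.2 p).symm

theorem cut_mul {z : A} (hz : CP z) (p q : A) : z * p * (z * q) = z * (p * q) := by
  calc z * p * (z * q) = z * (p * z) * q := by noncomm_ring
    _ = z * (z * p) * q := by rw [hz.2 p]
    _ = (z * z) * (p * q) := by noncomm_ring
    _ = z * (p * q) := by rw [pj_mul hz.1]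

theorem pi_cut {z g : A} (hz : CP z) (hg : PI g) : PI (z * g) := by
  refine ⟨pj_cut hz hg.1, fun w hw h => ?_⟩
  rw [← mul_assoc] at h ⊢
  exact hg.2 (w * z) (cp_mul hw hz) h

theorem eqv_cut {z p q : A} (hz : CP z) (h : Eqv p q) : Eqv (z * p) (z * q) := by
  obtain ⟨v, h1, h2⟩ := h
  refine ⟨z * v, ?_, ?_⟩
  · rw [star_mul, pj_star hz.1]
    calc star v * z * (z * v) = star v * (z * z) * v := by noncomm_ring
      _ = (star v * z) * v := by rw [pj_mul hz.1]
      _ = z * star v * v := by rw [hz.2]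
      _ = z * p := by rw [mul_assoc, h1]
  · rw [star_mul, pj_star hz.1]
    calc z * v * (star v * z) = z * ((v * star v) * z) := by noncomm_ring
      _ = z * (z * (v * star v)) := by rw [hz.2 (v * star v)]
      _ = z * z * (v * star v) := by noncomm_ring
      _ = z * q := by rw [pj_mul hz.1, h2]

/-- many copies of `g'` in `g`, after a central cut -/
theorem t_W1 : S_W1.{u} := by
  intro A _ hSup hInf hAdd hGC g g' hPg hPg' hle hsm hg0 hcov
  classical
  have hg : PJ g := hPg.1
  have hg' : PJ g' := hPg'.1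
  have hg0' : g' ≠ 0 := by
    have := hcov 1 cp_one (by rwa [one_mul])
    rwa [one_mul] at this
  -- Zorn
  let C : Set (Set A) := {S | (∀ p ∈ S, PJ p ∧ Le p g ∧ Eqv g' p) ∧
    ∀ p ∈ S, ∀ q ∈ S, p ≠ q → p * q = 0}
  obtain ⟨S, hS⟩ : ∃ S, Maximal (· ∈ C) S := by
    refine zorn_subset C ?_
    intro c hc hchain
    refine ⟨⋃₀ c, ⟨?_, ?_⟩, fun s hs => Set.subset_sUnion_of_mem hs⟩
    · rintro p ⟨s, hs, hps⟩
      exact (hc hs).1 p hps
    · rintro p ⟨s, hs, hps⟩ q ⟨t, ht, hqt⟩ hpq
      rcases hchain.total hs ht with h | h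
      · exact (hc ht).2 p (h hps) q hqt hpq
      · exact (hc hs).2 p hps q (h hqt) hpq
  have hSC : S ∈ C := hS.1
  have hq : ∀ i : S, PJ (i : A) := fun i => (hSC.1 i i.2).1
  have ho : ∀ i j : S, i ≠ j → (i : A) * (j : A) = 0 := fun i j hij =>
    hSC.2 i i.2 j j.2 (fun h => hij (Subtype.ext h))
  obtain ⟨E, hE⟩ := hSup S (fun i => (i : A)) hq
  have hEc := hE
  obtain ⟨hE1, hE2, hE3⟩ := hE
  -- `E ≤ g`
  have hgE : g * E = E := by
    have h : (1 - g) * E = 0 := by
      refine hE3 _ fun i => ?_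
      rw [sub_mul, one_mul, le_symm (hq i) hg (hSC.1 i i.2).2.1, sub_self]
    rw [sub_mul, one_mul] at h
    exact (sub_eq_zero.1 h).symm
  have hEg : E * g = E := le_symmB hg hE1 hgE
  have hr : PJ (g - E) := by
    refine pj_mk ?_ ?_
    · rw [sub_mul, mul_sub, mul_sub, pj_mul hg, pj_mul hE1, hgE, hEg]; abel
    · rw [star_sub, pj_star hg, pj_star hE1]
  have hEi : ∀ i : S, E * (i : A) = i := fun i => le_symm (hq i) hE1 (hE2 i)
  -- maximality
  have hmax : ¬ Sub g' (g - E) := by
    intro h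
    obtain ⟨v, hv, hv'⟩ := h
    have hp : PJ (v * star v) := pj_final hg' hv
    have hpg : Le (v * star v) g := by
      have : v * star v * g = v * star v * (g - E) * g := by rw [hv']
      unfold Le
      rw [this, mul_assoc, sub_mul, pj_mul hg, hEg, hv']
    have hpi : ∀ i : S, v * star v * (i : A) = 0 := by
      intro i
      have : v * star v * (i : A) = v * star v * (g - E) * (i : A) := by rw [hv']
      rw [this, mul_assoc, sub_mul, le_symm (hq i) hg (hSC.1 i i.2).2.1, hEi, sub_self, mul_zero]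
    have hins : insert (v * star v) S ∈ C := by
      refine ⟨?_, ?_⟩
      · rintro p (rfl | hp')
        · exact ⟨hp, hpg, ⟨v, hv, rfl⟩⟩
        · exact hSC.1 p hp'
      · rintro p (rfl | hp') q (rfl | hq') hpq
        · exact absurd rfl hpq
        · exact hpi ⟨q, hq'⟩
        · exact zero_symm hp (hSC.1 p hp').1 (hpi ⟨p, hp'⟩)
        · exact hSC.2 p hp' q hq' hpq
    have hmem : v * star v ∈ S := hS.2 hins (Set.subset_insert _ _) (Set.mem_insert _ _)
    have h0 : v * star v = 0 := by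
      have := hpi ⟨_, hmem⟩
      rw [← pj_mul hp]; exact this
    have hv0 : star v = 0 := by
      apply (CStarRing.star_mul_self_eq_zero_iff _).1
      rw [star_star]; exact h0
    apply hg0'
    rw [← hv, hv0, zero_mul]
  -- comparison
  obtain ⟨z1, hz1, hs1, hs2⟩ := hGC g' (g - E) hg' hr
  have hz : CP (1 - z1) := cp_compl hz1
  have hzg' : (1 - z1) * g' ≠ 0 := by
    intro h
    have h1 : z1 * g' = g' := by
      rw [sub_mul, one_mul] at h
      exact (sub_eq_zero.1 h).symm
    rw [h1] at hs1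
    apply hmax
    obtain ⟨v, hv, hv'⟩ := hs1
    refine ⟨v, hv, ?_⟩
    have h2 : z1 * (g - E) * (g - E) = z1 * (g - E) := by rw [mul_assoc, pj_mul hr]
    calc v * star v * (g - E) = v * star v * (z1 * (g - E)) * (g - E) := by rw [hv']
      _ = v * star v * (z1 * (g - E) * (g - E)) := by noncomm_ring
      _ = v * star v := by rw [h2, hv']
  have hzg : (1 - z1) * g ≠ 0 := by
    intro h
    apply hzg'
    have h1 : g' = g * g' := (le_symm hg' hg hle).symm
    rw [h1, ← mul_assoc, h, zero_mul]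
  have hzsub : Sub ((1 - z1) * g - (1 - z1) * E) ((1 - z1) * g') := by
    rw [← mul_sub]; exact hs2
  have hzE : PJ ((1 - z1) * E) := pj_cut hz hE1
  have hzq : ∀ i : S, PJ ((1 - z1) * (i : A)) := fun i => pj_cut hz (hq i)
  have hzo : ∀ i j : S, i ≠ j → (1 - z1) * (i : A) * ((1 - z1) * (j : A)) = 0 := by
    intro i j hij
    rw [cut_mul hz, ho i j hij, mul_zero]
  have hzS : IsSup (fun i : S => (1 - z1) * (i : A)) ((1 - z1) * E) := by
    refine ⟨hzE, fun i => ?_, fun x hx => ?_⟩
    · change (1 - z1) * (i : A) * ((1 - z1) * E) = (1 - z1) * (i : A)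
      rw [cut_mul hz, hE2 i]
    · rw [← mul_assoc]
      exact hE3 (x * (1 - z1)) (fun i => by rw [mul_assoc]; exact hx i)
  have hze : ∀ i : S, Eqv ((1 - z1) * g') ((1 - z1) * (i : A)) := fun i =>
    eqv_cut hz (hSC.1 i i.2).2.2
  refine ⟨1 - z1, hz, hzg, S, fun i => (1 - z1) * (i : A), (1 - z1) * E, ?_, hzq, hzo, ?_, hze, hzS, hzsub⟩
  · by_contra hfin
    rw [not_infinite_iff_finite] at hfin
    haveI : Fintype S := Fintype.ofFinite S
    have hsum : (1 - z1) * E = ∑ i : S, (1 - z1) * (i : A) :=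
      sup_fin (fun i : S => (1 - z1) * (i : A)) hzq hzo hzS
    have hH := hInf ((1 - z1) * g') (pi_cut hz hPg')
    have hzgg : PJ ((1 - z1) * g') := pj_cut hz hg'
    have hsE : Sub ((1 - z1) * E) ((1 - z1) * g') := by
      rw [hsum]
      refine sub_sumL hzgg hH Finset.univ (fun i : S => (1 - z1) * (i : A)) hzq hzo ?_
      intro i
      obtain ⟨v, hv, hv'⟩ := hze i
      refine ⟨star v, ?_, ?_⟩
      · rw [star_star, hv']
      · rw [star_star, hv, pj_mul hzgg]
    apply hsm (1 - z1) hz hzg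
    have hrz : PJ ((1 - z1) * g - (1 - z1) * E) := by
      rw [← mul_sub]; exact pj_cut hz hr
    have h0 : ((1 - z1) * g - (1 - z1) * E) * ((1 - z1) * E) = 0 := by
      rw [sub_mul, cut_mul hz, cut_mul hz, hgE, pj_mul hE1, sub_self]
    have := sub_addL hzgg hH hrz hzE h0 hzsub hsE
    rwa [sub_add_cancel] at this
  · intro i
    unfold Le
    rw [cut_mul hz, (hSC.1 i i.2).2.1]

end Pool.Agent.U438.AWQ
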